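import Pool.Agent.Lib.MP_469949_co.UpperD

namespace Pool.Agent.Results.MP_469949_co.FourDeficiency

open Pool.Agent.Lib.MP_469949_co

/-- For every `n` the largest size `lcs n` of a critical set in a latin square of order `n`
satisfies `lcs n ≤ n ^ 2 - 4 n + 100 n ^ (4 / 5)`. -/
theorem result : ∀ n : ℕ,
    (lcs n : ℝ) ≤ (n : ℝ) ^ 2 - 4 * n + 100 * (n : ℝ) ^ ((4 : ℝ) / 5) :=
  lcs_upper

end Pool.Agent.Results.MP_469949_co.FourDeficiency
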