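import Pool.Agent.Lib.MP_469949_co.Final

namespace Pool.Agent.Results.MP_469949_co.LinearDeficiency

open Pool.Agent.Lib.MP_469949_co

/-- For every `n ≥ 89` the largest size `lcs n` of a critical set in a latin square of order `n`
satisfies `n ≤ n ^ 2 - lcs n ≤ (47 * n + 1513) / 8`. -/
theorem result : ∀ n : ℕ, 89 ≤ n →
    lcs n + n ≤ n ^ 2 ∧ 8 * n ^ 2 ≤ 8 * lcs n + 47 * n + 1513 :=
  fun n hn => ⟨lcs_add_le n, lcs_lower n hn⟩

end Pool.Agent.Results.MP_469949_co.LinearDeficiency
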